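import Mathlib
import Pool.Agent.Y902.FB.ExR

/-!
# A criterion with Fermat quotients for the Fermat-Catalan equation

Consider three pairwise coprime integers `a, b, c ≥ 2` such that one of the powers `a ^ m`, `b ^ n`,
`c ^ k` with exponents at least `2` is the sum of the other two, and a prime divisor `ℓ` of `a`
which is large, but possibly as small as a power of `log (max a b c)`. Then `b` and `c` are
positively independent modulo the `ℓ`-th powers modulo `ℓ ^ 2`: if `(b ^ i c ^ j) ^ (ℓ - 1) ≡ 1 mod ℓ ^ 2`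
for some integers `0 ≤ i, j ≤ ℓ ^ (1 - ε)`, not both zero, then
`b ^ (ℓ - 1) ≡ c ^ (ℓ - 1) ≡ 1 mod ℓ ^ 2`.

For `(i, j) = (1, 0)` and `(0, 1)`: `b ^ (ℓ - 1) ≡ 1 mod ℓ ^ 2` if and only if
`c ^ (ℓ - 1) ≡ 1 mod ℓ ^ 2`. For `i = j = 1`: for example `d - 1`, `d + 1` and a multiple of `ℓ` are not
the three bases of a solution if `ℓ` divides `d` exactly once.
-/

set_option autoImplicit false

namespace Pool.Agent.Results.MP_509488_nt.FermatQuotients

open Filter Topology Pool.Agent.Y902.FB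

/-- `a`, `b`, `c` are the three bases of a solution with exponents at least two, in some order. -/
def Bases (a b c : ℕ) : Prop :=
  2 ≤ a ∧ 2 ≤ b ∧ 2 ≤ c ∧ Nat.Coprime a b ∧ Nat.Coprime a c ∧ Nat.Coprime b c ∧
    ∃ m n k : ℕ, 2 ≤ m ∧ 2 ≤ n ∧ 2 ≤ k ∧
      (a ^ m + b ^ n = c ^ k ∨ b ^ n + c ^ k = a ^ m ∨ c ^ k + a ^ m = b ^ n)

/-- All conditions on `ℓ`. -/
theorem large (κ : ℕ) (C ε : ℝ) (hε : 0 < ε) :
    ∃ δ : ℝ, 0 < δ ∧ ∀ᶠ l : ℕ in atTop, 3 ≤ l ∧ 4 * (C * ((l : ℝ) ^ δ) ^ κ) ≤ (l : ℝ) ^ ε ∧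
      (l : ℝ) ^ ε * (l : ℝ) ^ (1 - ε) = l := by
  refine ⟨ε / (2 * (κ + 1)), by positivity, ?_⟩
  have hw : Tendsto (fun l : ℕ => (l : ℝ) ^ (ε / 2)) atTop atTop :=
    (tendsto_rpow_atTop (by positivity)).comp tendsto_natCast_atTop_atTop
  filter_upwards [hw.eventually_ge_atTop (4 * |C|), eventually_ge_atTop 3] with l h1 h2
  have hl : (3 : ℝ) ≤ l := by exact_mod_cast h2
  have hl0 : (0 : ℝ) < l := by linarith
  refine ⟨h2, ?_, ?_⟩
  · have h3 : ((l : ℝ) ^ (ε / (2 * (κ + 1)))) ^ κ ≤ (l : ℝ) ^ (ε / 2) := by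
      rw [← Real.rpow_mul_natCast hl0.le]
      apply Real.rpow_le_rpow_of_exponent_le (by linarith)
      rw [div_mul_eq_mul_div, div_le_div_iff₀ (by positivity) (by norm_num)]
      have hκ : (0 : ℝ) ≤ κ := by positivity
      nlinarith
    have h4 : (l : ℝ) ^ ε = (l : ℝ) ^ (ε / 2) * (l : ℝ) ^ (ε / 2) := by
      rw [← Real.rpow_add hl0]
      congr 1
      ring
    have h5 : C * ((l : ℝ) ^ (ε / (2 * (κ + 1)))) ^ κ ≤ |C| * (l : ℝ) ^ (ε / 2) :=
      mul_le_mul (le_abs_self C) h3 (by positivity) (abs_nonneg C)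
    rw [h4]
    have h6 : 0 < (l : ℝ) ^ (ε / 2) := by positivity
    nlinarith
  · rw [← Real.rpow_add hl0]
    norm_num

/-- In a group: elements of order dividing a prime, with small exponents. -/
theorem group {G : Type*} [CommGroup G] {l : ℕ} (hl : l.Prime) {B C : G} (hB : B ^ l = 1)
    (hC : C ^ l = 1) {n k i j : ℕ} (hn : 0 < n) (hk : 0 < k) (hij : 0 < i + j) (h1 : B ^ n = C ^ k)
    (h2 : B ^ i * C ^ j = 1) (hlt : k * i + j * n < l) (hnl : n < l) : B = 1 ∧ C = 1 := by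
  have one : ∀ {D : G} {s : ℕ}, D ^ l = 1 → 0 < s → s < l → D ^ s = 1 → D = 1 := by
    intro D s hD hs hsl hDs
    have h3 : orderOf D ∣ l := orderOf_dvd_of_pow_eq_one hD
    have h4 : orderOf D ∣ s := orderOf_dvd_of_pow_eq_one hDs
    have h5 : Nat.Coprime s l := (Nat.coprime_comm.mp ((Nat.Prime.coprime_iff_not_dvd hl).mpr fun h =>
      absurd (Nat.le_of_dvd hs h) (by omega)))
    have h6 : orderOf D ∣ 1 := by
      rw [← h5.gcd_eq_one]
      exact Nat.dvd_gcd h4 h3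
    exact orderOf_eq_one_iff.mp (Nat.dvd_one.mp h6)
  have h3 : C ^ (k * i + j * n) = 1 := by
    have h4 : (B ^ i * C ^ j) ^ n = 1 := by rw [h2, one_pow]
    rw [mul_pow, ← pow_mul, mul_comm i n, pow_mul, h1, ← pow_mul, ← pow_mul, ← pow_add] at h4
    exact h4
  have hpos : 0 < k * i + j * n := by
    rcases Nat.eq_zero_or_pos i with hi | hi
    · have : 0 < j * n := Nat.mul_pos (by omega) hn
      omega
    · have : 0 < k * i := Nat.mul_pos hk hi
      omega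
  have hC1 : C = 1 := one hC hpos hlt h3
  rw [hC1, one_pow] at h1
  exact ⟨one hB hn hnl h1, hC1⟩

/-- The congruence between the powers of the other two bases. -/
theorem congruence {l a b c m n k : ℕ} (hl : l.Prime) (hl3 : 3 ≤ l) (hla : l ∣ a) (hm : 2 ≤ m)
    (heq : a ^ m + b ^ n = c ^ k ∨ b ^ n + c ^ k = a ^ m ∨ c ^ k + a ^ m = b ^ n) :
    ((b : ZMod (l ^ 2)) ^ (l - 1)) ^ n = ((c : ZMod (l ^ 2)) ^ (l - 1)) ^ k := by
  have ha : (a : ZMod (l ^ 2)) ^ m = 0 := by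
    have h1 : l ^ 2 ∣ a ^ m := (pow_dvd_pow_of_dvd hla 2).trans (pow_dvd_pow a hm)
    have h2 := (ZMod.natCast_eq_zero_iff (a ^ m) (l ^ 2)).mpr h1
    rwa [Nat.cast_pow] at h2
  have heven : Even (l - 1) := hl.even_sub_one (by omega)
  have h1 : (b : ZMod (l ^ 2)) ^ n = (c : ZMod (l ^ 2)) ^ k ∨
      (b : ZMod (l ^ 2)) ^ n = -(c : ZMod (l ^ 2)) ^ k := by
    rcases heq with h | h | h
    · left
      have h2 := congrArg (Nat.cast : ℕ → ZMod (l ^ 2)) h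
      push_cast at h2
      rw [ha, zero_add] at h2
      exact h2
    · right
      have h2 := congrArg (Nat.cast : ℕ → ZMod (l ^ 2)) h
      push_cast at h2
      rw [ha] at h2
      exact eq_neg_of_add_eq_zero_left h2
    · left
      have h2 := congrArg (Nat.cast : ℕ → ZMod (l ^ 2)) h
      push_cast at h2
      rw [ha, add_zero] at h2
      exact h2.symm
  rw [← pow_mul, ← pow_mul, mul_comm (l - 1) n, mul_comm (l - 1) k, pow_mul, pow_mul]
  rcases h1 with h1 | h1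
  · rw [h1]
  · rw [h1, heven.neg_pow]

/-- **The criterion.** -/
theorem result (ε : ℝ) (hε : 0 < ε) : ∃ δ : ℝ, 0 < δ ∧ ∃ l₀ : ℕ, ∀ l : ℕ, l₀ ≤ l → l.Prime →
    ∀ a b c : ℕ, Bases a b c → l ∣ a →
      (a : ℝ) ≤ Real.exp (l ^ δ) → (b : ℝ) ≤ Real.exp (l ^ δ) → (c : ℝ) ≤ Real.exp (l ^ δ) →
      ∀ i j : ℕ, 0 < i + j → (i : ℝ) ≤ (l : ℝ) ^ (1 - ε) → (j : ℝ) ≤ (l : ℝ) ^ (1 - ε) →
        (b ^ i * c ^ j) ^ (l - 1) ≡ 1 [MOD l ^ 2] →
        b ^ (l - 1) ≡ 1 [MOD l ^ 2] ∧ c ^ (l - 1) ≡ 1 [MOD l ^ 2] := by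
  obtain ⟨C₀, κ, hC, hexp⟩ := exp_bound_real
  obtain ⟨δ, hδ, hev⟩ := large κ C₀ ε hε
  obtain ⟨l₀, hl₀⟩ := eventually_atTop.mp hev
  refine ⟨δ, hδ, l₀, ?_⟩
  intro l hl hp a b c hsol hla hae hbe hce i j hij hi hj hmod
  obtain ⟨ha, hb, hc, cab, cac, cbc, m, n, k, hm, hn, hk, heq⟩ := hsol
  obtain ⟨e1, e2, e3⟩ := hl₀ l hl
  have hl3 : (3 : ℝ) ≤ l := by exact_mod_cast e1
  have hl0 : (0 : ℝ) < l := by linarith
  -- the exponents
  have bound : ∀ {u v w : ℕ} {p q r : ℕ}, 2 ≤ u → 2 ≤ v → 2 ≤ w → 2 ≤ p → 2 ≤ q → 2 ≤ r →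
      (u : ℝ) ≤ Real.exp (l ^ δ) → (v : ℝ) ≤ Real.exp (l ^ δ) → (w : ℝ) ≤ Real.exp (l ^ δ) →
      Nat.Coprime u v → Nat.Coprime u w → Nat.Coprime v w → u ^ p + v ^ q = w ^ r →
      4 * (p : ℝ) ≤ (l : ℝ) ^ ε ∧ 4 * (q : ℝ) ≤ (l : ℝ) ^ ε ∧ 4 * (r : ℝ) ≤ (l : ℝ) ^ ε := by
    intro u v w p q r hu hv hw hp hq hr lu lv lw cuv cuw cvw heq
    obtain ⟨k1, k2, k3⟩ := hexp u v w p q r (by omega) (by omega) (by omega) cuv cuw cvw hp hq hr heq
    have hmax : Real.log ((max u (max v w) : ℕ) : ℝ) ≤ (l : ℝ) ^ δ := by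
      have hpos : (0 : ℝ) < ((max u (max v w) : ℕ) : ℝ) := by
        have : 0 < max u (max v w) := lt_of_lt_of_le (by omega) (le_max_left _ _)
        exact_mod_cast this
      rw [Real.log_le_iff_le_exp hpos]
      push_cast
      exact max_le lu (max_le lv lw)
    have hmax0 : 0 ≤ Real.log ((max u (max v w) : ℕ) : ℝ) := Real.log_natCast_nonneg _
    have hfin : 4 * (C₀ * Real.log ((max u (max v w) : ℕ) : ℝ) ^ κ) ≤ (l : ℝ) ^ ε := by
      refine le_trans ?_ e2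
      apply mul_le_mul_of_nonneg_left _ (by norm_num)
      exact mul_le_mul_of_nonneg_left (pow_le_pow_left₀ hmax0 hmax κ) hC.le
    have j1 := k1 hu
    have j2 := k2 hv
    refine ⟨?_, ?_, ?_⟩ <;> linarith
  have hnk : 4 * (n : ℝ) ≤ (l : ℝ) ^ ε ∧ 4 * (k : ℝ) ≤ (l : ℝ) ^ ε := by
    rcases heq with h | h | h
    · obtain ⟨-, h2, h3⟩ := bound ha hb hc hm hn hk hae hbe hce cab cac cbc h
      exact ⟨h2, h3⟩
    · obtain ⟨h1, h2, -⟩ := bound hb hc ha hn hk hm hbe hce hae cbc cab.symm cac.symm h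
      exact ⟨h1, h2⟩
    · obtain ⟨h1, -, h3⟩ := bound hc ha hb hk hm hn hce hae hbe cac.symm cbc.symm cab h
      exact ⟨h3, h1⟩
  obtain ⟨hn4, hk4⟩ := hnk
  have hlt : k * i + j * n < l := by
    have h1 : (k : ℝ) * i ≤ (l : ℝ) ^ ε / 4 * (l : ℝ) ^ (1 - ε) :=
      mul_le_mul (by linarith) hi (by positivity) (by positivity)
    have h2 : (j : ℝ) * n ≤ (l : ℝ) ^ (1 - ε) * ((l : ℝ) ^ ε / 4) :=
      mul_le_mul hj (by linarith) (by positivity) (by positivity)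
    have h3 : ((k * i + j * n : ℕ) : ℝ) < (l : ℝ) := by
      push_cast
      nlinarith
    exact_mod_cast h3
  have hij1 : (1 : ℝ) ≤ (l : ℝ) ^ (1 - ε) := by
    rcases Nat.eq_zero_or_pos i with h | h
    · have : 1 ≤ j := by omega
      exact le_trans (by exact_mod_cast this) hj
    · exact le_trans (by exact_mod_cast h) hi
  have hnl : n < l := by
    have h1 : (n : ℝ) < l := by
      have h2 : (n : ℝ) * 1 ≤ (l : ℝ) ^ ε / 4 * (l : ℝ) ^ (1 - ε) :=
        mul_le_mul (by linarith) hij1 (by norm_num) (by positivity)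
      nlinarith
    exact_mod_cast h1
  -- units modulo `l ^ 2`
  have hbl : Nat.Coprime b (l ^ 2) := by
    apply Nat.Coprime.pow_right
    exact (Nat.Coprime.coprime_dvd_left hla cab).symm
  have hcl : Nat.Coprime c (l ^ 2) := by
    apply Nat.Coprime.pow_right
    exact (Nat.Coprime.coprime_dvd_left hla cac).symm
  obtain ⟨B, hB⟩ : ∃ B : (ZMod (l ^ 2))ˣ, B = ZMod.unitOfCoprime b hbl ^ (l - 1) := ⟨_, rfl⟩
  obtain ⟨D, hD⟩ : ∃ D : (ZMod (l ^ 2))ˣ, D = ZMod.unitOfCoprime c hcl ^ (l - 1) := ⟨_, rfl⟩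
  have htot : ∀ u : (ZMod (l ^ 2))ˣ, (u ^ (l - 1)) ^ l = 1 := by
    intro u
    have h1 := ZMod.pow_totient u
    rw [Nat.totient_prime_pow hp (by norm_num)] at h1
    rw [← pow_mul, ← h1]
    congr 1
    simp [mul_comm]
  have hBl : B ^ l = 1 := by rw [hB]; exact htot _
  have hDl : D ^ l = 1 := by rw [hD]; exact htot _
  have h1 : B ^ n = D ^ k := by
    rw [hB, hD]
    apply Units.ext
    simp only [Units.val_pow_eq_pow_val, ZMod.coe_unitOfCoprime]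
    exact congruence hp e1 hla hm heq
  have h2 : B ^ i * D ^ j = 1 := by
    rw [hB, hD]
    apply Units.ext
    simp only [Units.val_mul, Units.val_pow_eq_pow_val, ZMod.coe_unitOfCoprime, Units.val_one]
    have h3 := (ZMod.natCast_eq_natCast_iff _ _ _).mpr hmod
    push_cast at h3
    rw [← h3, mul_pow, ← pow_mul, ← pow_mul, ← pow_mul, ← pow_mul, mul_comm (l - 1) i,
      mul_comm (l - 1) j]
  obtain ⟨h3, h4⟩ := group hp hBl hDl (by omega) (by omega) hij h1 h2 hlt hnl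
  constructor
  · rw [← ZMod.natCast_eq_natCast_iff]
    rw [hB] at h3
    have h5 := congrArg Units.val h3
    simp only [Units.val_pow_eq_pow_val, ZMod.coe_unitOfCoprime, Units.val_one] at h5
    push_cast
    exact h5
  · rw [← ZMod.natCast_eq_natCast_iff]
    rw [hD] at h4
    have h5 := congrArg Units.val h4
    simp only [Units.val_pow_eq_pow_val, ZMod.coe_unitOfCoprime, Units.val_one] at h5
    push_cast
    exact h5

end Pool.Agent.Results.MP_509488_nt.FermatQuotients
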