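import Mathlib
import Pool.Agent.Y902.FB.ExR

/-!
# Two solutions of the Fermat-Catalan equation with the same three bases

Let `a, b, c ≥ 2` be pairwise coprime, `M` the largest of them, and suppose that `a ^ x + b ^ y = c ^ z`
has two different solutions with `x, y ≥ 2` and `z ≥ 1`. Then for at least two of the three bases
`u`, with the other two bases `v` and `w`, there is `0 < D ≤ C (log M) ^ κ` such that `u ^ e` divides
`v ^ D - 1` and `w ^ D - 1`, where `e` is the smaller one of the two exponents of `u`. The constants `C`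
and `κ` are absolute.
-/

set_option autoImplicit false

namespace Pool.Agent.Results.MP_509488_nt.TwoSolutions

open Pool.Agent.Y902.FB

/-- `u ^ e` divides `v ^ D - 1` and `w ^ D - 1` for some positive integer `D ≤ L`. -/
def Div (L : ℝ) (u e v w : ℕ) : Prop :=
  ∃ D : ℕ, 0 < D ∧ (D : ℝ) ≤ L ∧ u ^ e ∣ v ^ D - 1 ∧ u ^ e ∣ w ^ D - 1

/-- The distance of two natural numbers. -/
def dist (A B : ℕ) : ℕ := (A - B) + (B - A)

theorem dist_le (A B : ℕ) : dist A B ≤ max A B := by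
  unfold dist
  omega

theorem dist_pos {A B : ℕ} (h : A ≠ B) : 0 < dist A B := by
  unfold dist
  omega

theorem pow_dist {G : Type*} [Group G] (x : G) {A B : ℕ} (h : x ^ A = x ^ B) : x ^ dist A B = 1 := by
  unfold dist
  rcases le_total A B with hAB | hAB
  · obtain ⟨d, rfl⟩ := Nat.exists_eq_add_of_le hAB
    have h1 : x ^ d = 1 := by
      rw [pow_add] at h
      exact (left_eq_mul.mp h)
    simpa using h1
  · obtain ⟨d, rfl⟩ := Nat.exists_eq_add_of_le hAB
    have h1 : x ^ d = 1 := by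
      rw [pow_add] at h
      exact (mul_eq_left.mp h)
    simpa using h1

/-- Elimination. -/
theorem elim {G : Type*} [CommGroup G] (V W : G) {p q p' q' : ℕ} (h : V ^ p = W ^ q)
    (h' : V ^ p' = W ^ q') : V ^ dist (p * q') (p' * q) = 1 ∧ W ^ dist (p * q') (p' * q) = 1 := by
  constructor
  · apply pow_dist
    rw [pow_mul, h, ← pow_mul, mul_comm q q', pow_mul, ← h', ← pow_mul]
  · apply pow_dist
    rw [mul_comm p q', mul_comm p' q, pow_mul, ← h', ← pow_mul, mul_comm p' p, pow_mul, h, ← pow_mul]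

/-- The congruences modulo a power of the base `u`. -/
theorem modulo {u v w e p q p' q' : ℕ} (hv : Nat.Coprime u v) (hw : Nat.Coprime u w)
    (hv0 : 0 < v) (hw0 : 0 < w)
    (h : (v : ZMod (u ^ e)) ^ p = (w : ZMod (u ^ e)) ^ q ∨
      (v : ZMod (u ^ e)) ^ p = -(w : ZMod (u ^ e)) ^ q)
    (h' : (v : ZMod (u ^ e)) ^ p' = (w : ZMod (u ^ e)) ^ q' ∨
      (v : ZMod (u ^ e)) ^ p' = -(w : ZMod (u ^ e)) ^ q') :
    u ^ e ∣ v ^ (2 * dist (p * q') (p' * q)) - 1 ∧ u ^ e ∣ w ^ (2 * dist (p * q') (p' * q)) - 1 := by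
  have hvl : Nat.Coprime v (u ^ e) := Nat.Coprime.pow_right _ hv.symm
  have hwl : Nat.Coprime w (u ^ e) := Nat.Coprime.pow_right _ hw.symm
  have sq : ∀ {s t : ℕ}, ((v : ZMod (u ^ e)) ^ s = (w : ZMod (u ^ e)) ^ t ∨
      (v : ZMod (u ^ e)) ^ s = -(w : ZMod (u ^ e)) ^ t) →
      (ZMod.unitOfCoprime v hvl ^ 2) ^ s = (ZMod.unitOfCoprime w hwl ^ 2) ^ t := by
    intro s t hst
    apply Units.ext
    simp only [Units.val_pow_eq_pow_val, ZMod.coe_unitOfCoprime]
    rw [← pow_mul, ← pow_mul, mul_comm 2 s, mul_comm 2 t, pow_mul, pow_mul]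
    rcases hst with hst | hst
    · rw [hst]
    · rw [hst, neg_sq]
  obtain ⟨h1, h2⟩ := elim _ _ (sq h) (sq h')
  have fin : ∀ {z D : ℕ} (hz0 : 0 < z) (hz : Nat.Coprime z (u ^ e)),
      (ZMod.unitOfCoprime z hz ^ 2) ^ D = 1 → u ^ e ∣ z ^ (2 * D) - 1 := by
    intro z D hz0 hz hD
    have h3 := congrArg Units.val hD
    simp only [Units.val_pow_eq_pow_val, ZMod.coe_unitOfCoprime, Units.val_one] at h3
    rw [← pow_mul] at h3
    have h4 : ((1 : ℕ) : ZMod (u ^ e)) = ((z ^ (2 * D) : ℕ) : ZMod (u ^ e)) := by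
      push_cast
      exact h3.symm
    have h5 : 1 ≡ z ^ (2 * D) [MOD u ^ e] := (ZMod.natCast_eq_natCast_iff _ _ _).mp h4
    exact (Nat.modEq_iff_dvd' (Nat.one_le_pow _ _ hz0)).mp h5
  exact ⟨fin hv0 hvl h1, fin hw0 hwl h2⟩

theorem zero_pow' {u e m : ℕ} (h : e ≤ m) : (u : ZMod (u ^ e)) ^ m = 0 := by
  have h1 := (ZMod.natCast_eq_zero_iff (u ^ m) (u ^ e)).mpr (pow_dvd_pow u h)
  rwa [Nat.cast_pow] at h1

/-- Modulo powers of `a`. -/
theorem mod_a {a b c m n k e : ℕ} (he : e ≤ m) (heq : a ^ m + b ^ n = c ^ k) :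
    (b : ZMod (a ^ e)) ^ n = (c : ZMod (a ^ e)) ^ k := by
  have h2 := congrArg (Nat.cast : ℕ → ZMod (a ^ e)) heq
  push_cast at h2
  rwa [zero_pow' he, zero_add] at h2

/-- Modulo powers of `c`. -/
theorem mod_c {a b c m n k e : ℕ} (he : e ≤ k) (heq : a ^ m + b ^ n = c ^ k) :
    (a : ZMod (c ^ e)) ^ m = -(b : ZMod (c ^ e)) ^ n := by
  have h2 := congrArg (Nat.cast : ℕ → ZMod (c ^ e)) heq
  push_cast at h2
  rw [zero_pow' he] at h2
  exact eq_neg_of_add_eq_zero_left h2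

/-- Two solutions with proportional exponents are equal. -/
theorem proportional {a b c m n k m' n' k' : ℕ} (ha : 0 < a) (hb : 0 < b)
    (heq : a ^ m + b ^ n = c ^ k) (heq' : a ^ m' + b ^ n' = c ^ k')
    (h1 : m * k' = m' * k) (h2 : n * k' = n' * k) (hlt : k < k') : False := by
  obtain ⟨A, hA⟩ : ∃ A, A = a ^ m := ⟨_, rfl⟩
  obtain ⟨B, hB⟩ : ∃ B, B = b ^ n := ⟨_, rfl⟩
  obtain ⟨A', hA'⟩ : ∃ A, A = a ^ m' := ⟨_, rfl⟩
  obtain ⟨B', hB'⟩ : ∃ B, B = b ^ n' := ⟨_, rfl⟩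
  obtain ⟨E, hE⟩ : ∃ E, E = c ^ k := ⟨_, rfl⟩
  obtain ⟨E', hE'⟩ : ∃ E, E = c ^ k' := ⟨_, rfl⟩
  have hA0 : 0 < A := by rw [hA]; exact Nat.pow_pos ha
  have hB0 : 0 < B := by rw [hB]; exact Nat.pow_pos hb
  have hsum : A + B = E := by rw [hA, hB, hE, heq]
  have hsum' : A' + B' = E' := by rw [hA', hB', hE', heq']
  have pA : A' ^ k = A ^ k' := by rw [hA, hA', ← pow_mul, ← pow_mul, h1]
  have pB : B' ^ k = B ^ k' := by rw [hB, hB', ← pow_mul, ← pow_mul, h2]
  have pE : E' ^ k = E ^ k' := by rw [hE, hE', ← pow_mul, ← pow_mul, mul_comm]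
  obtain ⟨d, rfl⟩ := Nat.exists_eq_add_of_lt hlt
  have key : ∀ {X X' : ℕ}, 0 < X → X < E → X' ^ k = X ^ (k + d + 1) → X' * E < X * E' := by
    intro X X' hX hXE hXX
    have hE0 : 0 < E := by omega
    have h3 : (X' * E) ^ k < (X * E') ^ k := by
      rw [mul_pow, mul_pow, hXX, pE]
      have h4 : X ^ (d + 1) < E ^ (d + 1) := Nat.pow_lt_pow_left hXE (by omega)
      have h5 : X ^ (k + d + 1) * E ^ k = X ^ k * E ^ k * X ^ (d + 1) := by
        rw [add_assoc, pow_add]; ring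
      have h6 : X ^ k * E ^ (k + d + 1) = X ^ k * E ^ k * E ^ (d + 1) := by
        rw [add_assoc, pow_add]; ring
      rw [h5, h6]
      exact Nat.mul_lt_mul_of_pos_left h4 (by positivity)
    exact lt_of_pow_lt_pow_left₀ k (by positivity) h3
  have k1 := key hA0 (by omega) pA
  have k2 := key hB0 (by omega) pB
  have k3 : (A' + B') * E < (A + B) * E' := by
    rw [add_mul, add_mul]
    omega
  rw [hsum, hsum', mul_comm] at k3
  exact lt_irrefl _ k3

/-- The bound of the exponents, third exponent one included. -/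
theorem expo : ∃ (L : ℝ) (κ : ℕ), 0 < L ∧ ∀ a b c m n k : ℕ, 2 ≤ a → 2 ≤ b → 2 ≤ c →
    Nat.Coprime a b → Nat.Coprime a c → Nat.Coprime b c → 2 ≤ m → 2 ≤ n → 1 ≤ k →
    a ^ m + b ^ n = c ^ k →
    (m : ℝ) ≤ L * Real.log ((max a (max b c) : ℕ) : ℝ) ^ κ ∧
    (n : ℝ) ≤ L * Real.log ((max a (max b c) : ℕ) : ℝ) ^ κ ∧
    (k : ℝ) ≤ L * Real.log ((max a (max b c) : ℕ) : ℝ) ^ κ := by
  obtain ⟨C, κ, hC, h⟩ := exp_bound_real
  refine ⟨(C + 1) * 2 ^ (κ + 1), κ + 1, by positivity, ?_⟩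
  intro a b c m n k ha hb hc hab hac hbc hm hn hk heq
  obtain ⟨x, hx⟩ : ∃ x, x = Real.log ((max a (max b c) : ℕ) : ℝ) := ⟨_, rfl⟩
  have hM : (2 : ℝ) ≤ ((max a (max b c) : ℕ) : ℝ) := by
    have : 2 ≤ max a (max b c) := ha.trans (le_max_left _ _)
    exact_mod_cast this
  have hx2 : Real.log 2 ≤ x := by
    rw [hx]
    exact Real.log_le_log (by norm_num) hM
  have hl2 := Real.log_two_gt_d9
  have hy : (1 : ℝ) ≤ 2 * x := by linarith
  have hx0 : 0 < x := by linarith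
  have e : (C + 1) * 2 ^ (κ + 1) * x ^ (κ + 1) = (C + 1) * (2 * x) ^ (κ + 1) := by
    rw [mul_pow]; ring
  rw [← hx, e]
  have hbig : (1 : ℝ) ≤ (2 * x) ^ (κ + 1) := one_le_pow₀ hy
  have hbig2 : 2 * x ≤ (2 * x) ^ (κ + 1) := by
    calc 2 * x = (2 * x) ^ 1 := (pow_one _).symm
      _ ≤ _ := pow_le_pow_right₀ hy (by omega)
  have hbig3 : C * x ^ κ ≤ C * (2 * x) ^ (κ + 1) := by
    apply mul_le_mul_of_nonneg_left _ hC.le
    calc x ^ κ ≤ (2 * x) ^ κ := pow_le_pow_left₀ hx0.le (by linarith) _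
      _ ≤ _ := pow_le_pow_right₀ hy (by omega)
  have hpos : 0 ≤ C * (2 * x) ^ (κ + 1) := by positivity
  have e2 : (C + 1) * (2 * x) ^ (κ + 1) = C * (2 * x) ^ (κ + 1) + (2 * x) ^ (κ + 1) := by ring
  rw [e2]
  rcases Nat.lt_or_ge k 2 with hk1 | hk2
  · have hk1' : k = 1 := by omega
    subst hk1'
    rw [pow_one] at heq
    have main : ∀ {u s : ℕ}, 2 ≤ u → u ^ s ≤ c → (s : ℝ) ≤ 2 * x := by
      intro u s hu hus
      have h1 : 2 ^ s ≤ max a (max b c) :=
        (Nat.pow_le_pow_left hu s).trans (hus.trans ((le_max_right _ _).trans (le_max_right _ _)))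
      have h2 : ((2 : ℝ)) ^ s ≤ ((max a (max b c) : ℕ) : ℝ) := by exact_mod_cast h1
      have h3 := Real.log_le_log (by positivity) h2
      rw [Real.log_pow, ← hx] at h3
      have hs : (0 : ℝ) ≤ s := by positivity
      nlinarith
    have h1 := main ha (show a ^ m ≤ c by omega)
    have h2 := main hb (show b ^ n ≤ c by omega)
    refine ⟨by linarith, by linarith, ?_⟩
    push_cast
    linarith
  · obtain ⟨h1, h2, h3⟩ := h a b c m n k (by omega) (by omega) (by omega) hab hac hbc hm hn hk2 heq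
    rw [← hx] at h1 h2 h3
    have h1 := h1 ha
    have h2 := h2 hb
    refine ⟨by linarith, by linarith, by linarith⟩

/-- **Two solutions with the same bases.** -/
theorem result : ∃ (C : ℝ) (κ : ℕ), ∀ a b c : ℕ, 2 ≤ a → 2 ≤ b → 2 ≤ c →
    Nat.Coprime a b → Nat.Coprime a c → Nat.Coprime b c →
    ∀ x y z x' y' z' : ℕ, 2 ≤ x → 2 ≤ y → 1 ≤ z → 2 ≤ x' → 2 ≤ y' → 1 ≤ z' →
      a ^ x + b ^ y = c ^ z → a ^ x' + b ^ y' = c ^ z' → (x, y, z) ≠ (x', y', z') →
      ∀ L : ℝ, L = C * Real.log ((max a (max b c) : ℕ) : ℝ) ^ κ →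
        (Div L a (min x x') b c ∧ Div L b (min y y') a c) ∨
        (Div L a (min x x') b c ∧ Div L c (min z z') a b) ∨
        (Div L b (min y y') a c ∧ Div L c (min z z') a b) := by
  obtain ⟨L₀, κ, hL₀, hexp⟩ := expo
  refine ⟨2 * L₀ ^ 2, 2 * κ, ?_⟩
  intro a b c ha hb hc hab hac hbc x y z x' y' z' hx hy hz hx' hy' hz' heq heq' hne L hL
  obtain ⟨e1, e2, e3⟩ := hexp a b c x y z ha hb hc hab hac hbc hx hy hz heq
  obtain ⟨f1, f2, f3⟩ := hexp a b c x' y' z' ha hb hc hab hac hbc hx' hy' hz' heq'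
  obtain ⟨N, hN⟩ : ∃ N : ℝ, N = L₀ * Real.log ((max a (max b c) : ℕ) : ℝ) ^ κ := ⟨_, rfl⟩
  rw [← hN] at e1 e2 e3 f1 f2 f3
  have hLN : L = 2 * (N * N) := by rw [hL, hN]; ring
  have hN0 : 0 ≤ N := le_trans (by positivity) e1
  -- the bound of `D`
  have hD : ∀ {p q p' q' : ℕ}, (p : ℝ) ≤ N → (q : ℝ) ≤ N → (p' : ℝ) ≤ N → (q' : ℝ) ≤ N →
      ((2 * dist (p * q') (p' * q) : ℕ) : ℝ) ≤ L := by
    intro p q p' q' h1 h2 h3 h4
    have h5 : ((dist (p * q') (p' * q) : ℕ) : ℝ) ≤ ((max (p * q') (p' * q) : ℕ) : ℝ) := by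
      exact_mod_cast dist_le _ _
    have h6 : ((max (p * q') (p' * q) : ℕ) : ℝ) ≤ N * N := by
      rw [Nat.cast_max]
      push_cast
      exact max_le (mul_le_mul h1 h4 (by positivity) hN0) (mul_le_mul h3 h2 (by positivity) hN0)
    push_cast
    rw [hLN]
    linarith
  have hA : y * z' ≠ y' * z → Div L a (min x x') b c := by
    intro h
    obtain ⟨h1, h2⟩ := modulo (e := min x x') hab hac (by omega) (by omega)
      (Or.inl (mod_a (min_le_left _ _) heq)) (Or.inl (mod_a (min_le_right _ _) heq'))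
    exact ⟨_, Nat.mul_pos (by norm_num) (dist_pos h), hD e2 e3 f2 f3, h1, h2⟩
  have hB : x * z' ≠ x' * z → Div L b (min y y') a c := by
    intro h
    have g : b ^ y + a ^ x = c ^ z := by rw [add_comm]; exact heq
    have g' : b ^ y' + a ^ x' = c ^ z' := by rw [add_comm]; exact heq'
    obtain ⟨h1, h2⟩ := modulo (e := min y y') hab.symm hbc (by omega) (by omega)
      (Or.inl (mod_a (min_le_left _ _) g)) (Or.inl (mod_a (min_le_right _ _) g'))
    exact ⟨_, Nat.mul_pos (by norm_num) (dist_pos h), hD e1 e3 f1 f3, h1, h2⟩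
  have hC : x * y' ≠ x' * y → Div L c (min z z') a b := by
    intro h
    obtain ⟨h1, h2⟩ := modulo (e := min z z') hac.symm hbc.symm (by omega) (by omega)
      (Or.inr (mod_c (min_le_left _ _) heq)) (Or.inr (mod_c (min_le_right _ _) heq'))
    exact ⟨_, Nat.mul_pos (by norm_num) (dist_pos h), hD e1 e2 f1 f2, h1, h2⟩
  -- two proportions give a contradiction
  have hno : ¬ (x * z' = x' * z ∧ y * z' = y' * z) := by
    rintro ⟨h1, h2⟩
    rcases lt_trichotomy z z' with h | h | h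
    · exact proportional (by omega) (by omega) heq heq' h1 h2 h
    · subst h
      have h3 : x = x' := Nat.eq_of_mul_eq_mul_right (by omega) h1
      have h4 : y = y' := Nat.eq_of_mul_eq_mul_right (by omega) h2
      exact hne (by rw [h3, h4])
    · exact proportional (by omega) (by omega) heq' heq h1.symm h2.symm h
  by_cases p1 : y * z' = y' * z
  · have p2 : x * z' ≠ x' * z := fun h => hno ⟨h, p1⟩
    have p3 : x * y' ≠ x' * y := by
      intro h
      apply p2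
      have h3 : x * z' * y' = x' * z * y' := by
        calc x * z' * y' = (x * y') * z' := by ring
          _ = x' * (y * z') := by rw [h]; ring
          _ = x' * z * y' := by rw [p1]; ring
      exact Nat.eq_of_mul_eq_mul_right (by omega) h3
    exact Or.inr (Or.inr ⟨hB p2, hC p3⟩)
  · by_cases p2 : x * z' = x' * z
    · have p3 : x * y' ≠ x' * y := by
        intro h
        apply p1
        have h3 : y * z' * x' = y' * z * x' := by
          calc y * z' * x' = (x' * y) * z' := by ring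
            _ = (x * z') * y' := by rw [← h]; ring
            _ = y' * z * x' := by rw [p2]; ring
        exact Nat.eq_of_mul_eq_mul_right (by omega) h3
      exact Or.inr (Or.inl ⟨hA p1, hC p3⟩)
    · exact Or.inl ⟨hA p1, hB p2⟩

end Pool.Agent.Results.MP_509488_nt.TwoSolutions
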