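import Mathlib
import Pool.Agent.Y902.FB.ExR
import Pool.Agent.Q103.FC.Zero

/-!
# The Fermat-Catalan equation in values of polynomials with constant terms `0`, `± 1`, `± 1`

For every `K` there is `δ > 0` such that for every large integer `t` and all integer polynomials `f`,
`g`, `h` of degree at most `K`, with coefficients at most `t ^ δ` in absolute value, and with
`f(0) = 0`, `g(0) = ± 1`, `h(0) = ± 1`: if the integers `f(t), g(t), h(t) ≥ 2` are pairwise coprime,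
then every solution of `f(t) ^ x + g(t) ^ y = h(t) ^ z` or `g(t) ^ y + h(t) ^ z = f(t) ^ x` with
`x, y, z ≥ 2` is the value of a polynomial identity, and `1 / x + 1 / y + 1 / z > 1`.
No condition on the leading coefficients: for example the bases may be `a t`, `b t ± 1`, `c t ± 1` with
all positive `a, b, c ≤ t ^ δ`.
-/

set_option autoImplicit false

namespace Pool.Agent.Results.MP_509488_nt.UnitConstantTerms

open Polynomial Filter Topology Pool.Agent.Q103.FC Pool.Agent.Y902.FB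

/-- Integer polynomials of degree at most `K` with all coefficients at most `H` in absolute value. -/
def Small (K : ℕ) (H : ℝ) (P : ℤ[X]) : Prop :=
  P.natDegree ≤ K ∧ ∀ i, |(P.coeff i : ℝ)| ≤ H

/-- All conditions on `t`. -/
theorem large (K N κ : ℕ) (hN : 0 < N) (C : ℝ) :
    ∀ᶠ t : ℕ in atTop, 2 ≤ t ∧ (K : ℝ) + 1 ≤ t ∧
      1 ≤ (t : ℝ) ^ (1 / (8 * N : ℝ)) ∧
      (t : ℝ) ^ (1 / (8 * N : ℝ)) + 3 ≤ t ∧
      3 * ((t : ℝ) ^ (1 / (8 * N : ℝ)) * (t : ℝ) ^ (1 / (8 * N : ℝ))) ^ N < t ∧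
      C * ((K + 2) * Real.log t) ^ κ ≤ (t : ℝ) ^ (1 / (8 * N : ℝ)) := by
  have hNR : (0 : ℝ) < N := by exact_mod_cast hN
  have hw : Tendsto (fun t : ℕ => (t : ℝ) ^ (1 / (16 * N) : ℝ)) atTop atTop :=
    (tendsto_rpow_atTop (by positivity)).comp tendsto_natCast_atTop_atTop
  have hsmall : ∀ᶠ t : ℕ in atTop, Real.log (t : ℝ) ≤ (t : ℝ) ^ (1 / (16 * N * (κ + 1)) : ℝ) := by
    have h1 := (isLittleO_log_rpow_atTop (show (0 : ℝ) < 1 / (16 * N * (κ + 1)) by positivity)).bound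
      (show (0 : ℝ) < 1 by norm_num)
    have h2 := tendsto_natCast_atTop_atTop.eventually h1
    filter_upwards [h2, eventually_ge_atTop 1] with t ht ht1
    have ht1' : (1 : ℝ) ≤ t := by exact_mod_cast ht1
    rw [one_mul, Real.norm_of_nonneg (Real.log_nonneg ht1'), Real.norm_of_nonneg (by positivity)] at ht
    exact ht
  filter_upwards [hw.eventually_ge_atTop (|C| * (K + 2) ^ κ), hsmall, eventually_ge_atTop 81,
    eventually_ge_atTop (K + 1)] with t h1 h5 h6 h7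
  have hT : (81 : ℝ) ≤ t := by exact_mod_cast h6
  have hT0 : (0 : ℝ) < t := by linarith
  obtain ⟨B, hB⟩ : ∃ B : ℝ, B = (t : ℝ) ^ (1 / (8 * N : ℝ)) := ⟨_, rfl⟩
  obtain ⟨w, hwd⟩ : ∃ w : ℝ, w = (t : ℝ) ^ (1 / (16 * N) : ℝ) := ⟨_, rfl⟩
  rw [← hwd] at h1
  have hBw : B = w * w := by
    rw [hB, hwd, ← Real.rpow_add hT0]
    congr 1
    field_simp
    norm_num
  have hB1 : 1 ≤ B := by rw [hB]; exact Real.one_le_rpow (by linarith) (by positivity)
  have hw1 : 1 ≤ w := by rw [hwd]; exact Real.one_le_rpow (by linarith) (by positivity)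
  obtain ⟨v, hv⟩ : ∃ v : ℝ, v = (t : ℝ) ^ (1 / 4 : ℝ) := ⟨_, rfl⟩
  have htv : (t : ℝ) = v ^ 4 := by
    rw [hv, ← Real.rpow_natCast, ← Real.rpow_mul hT0.le]
    norm_num
  have hv3 : 3 ≤ v := by
    by_contra hcon
    push Not at hcon
    have hv0 : 0 ≤ v := by rw [hv]; positivity
    have : v ^ 4 < 3 ^ 4 := pow_lt_pow_left₀ hcon hv0 (by norm_num)
    rw [← htv] at this
    norm_num at this
    linarith
  have hBv : (B * B) ^ N = v := by
    rw [hB, hv, ← Real.rpow_add hT0, ← Real.rpow_natCast, ← Real.rpow_mul hT0.le]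
    congr 1
    field_simp
    norm_num
  have hBlev : B ≤ v := by
    rw [← hBv]
    have h8 : B ≤ B * B := by nlinarith
    exact h8.trans (le_self_pow₀ (by nlinarith) (by omega))
  have hvt : 27 * v ≤ t := by
    rw [htv]
    have : v ^ 4 = v ^ 3 * v := by ring
    rw [this]
    have h9 : (3 : ℝ) ^ 3 ≤ v ^ 3 := pow_le_pow_left₀ (by norm_num) hv3 3
    norm_num at h9
    nlinarith
  rw [← hB]
  refine ⟨by omega, by exact_mod_cast h7, hB1, by linarith, ?_, ?_⟩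
  · rw [hBv]; linarith
  · have h7 : Real.log t ^ κ ≤ w := by
      have hlog0 : 0 ≤ Real.log t := Real.log_nonneg (by linarith)
      calc Real.log t ^ κ ≤ ((t : ℝ) ^ (1 / (16 * N * (κ + 1)) : ℝ)) ^ κ :=
            pow_le_pow_left₀ hlog0 h5 κ
        _ = (t : ℝ) ^ ((1 / (16 * N * (κ + 1)) : ℝ) * κ) := by rw [← Real.rpow_mul_natCast hT0.le]
        _ ≤ (t : ℝ) ^ (1 / (16 * N) : ℝ) := by
            apply Real.rpow_le_rpow_of_exponent_le (by linarith)
            have hκ : (0 : ℝ) ≤ κ := by positivity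
            rw [div_mul_eq_mul_div, one_mul, div_le_div_iff₀ (by positivity) (by positivity)]
            nlinarith
        _ = w := hwd.symm
    have h8 : C * ((K + 2) * Real.log t) ^ κ ≤ |C| * (K + 2) ^ κ * w := by
      rw [mul_pow, ← mul_assoc]
      apply mul_le_mul _ h7 (by
        have : 0 ≤ Real.log t := Real.log_nonneg (by linarith)
        positivity) (by positivity)
      exact mul_le_mul_of_nonneg_right (le_abs_self C) (by positivity)
    have h9 : |C| * (K + 2) ^ κ * w ≤ w * w := mul_le_mul_of_nonneg_right h1 (by linarith)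
    rw [hBw]
    linarith

/-- The values are at most a power of `t`. -/
theorem value {P : ℤ[X]} {K t : ℕ} {H : ℝ} (hP : Small K H P) (ht : 2 ≤ t) (hKt : (K : ℝ) + 1 ≤ t)
    (hHt : H ≤ t) (h2 : 2 ≤ P.eval (t : ℤ)) :
    Real.log ((P.eval (t : ℤ) : ℤ) : ℝ) ≤ (K + 2) * Real.log t := by
  have hT : (2 : ℝ) ≤ t := by exact_mod_cast ht
  obtain ⟨hd, hc⟩ := hP
  have h1 : ((P.eval (t : ℤ) : ℤ) : ℝ) ≤ (t : ℝ) ^ (K + 2) := by
    rw [eval_eq_sum_range]
    push_cast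
    calc ∑ i ∈ Finset.range (P.natDegree + 1), (P.coeff i : ℝ) * (t : ℝ) ^ i
        ≤ ∑ i ∈ Finset.range (P.natDegree + 1), (t : ℝ) * (t : ℝ) ^ K := by
          apply Finset.sum_le_sum
          intro i hi
          rw [Finset.mem_range] at hi
          have k1 : (P.coeff i : ℝ) ≤ t := (le_abs_self _).trans ((hc i).trans hHt)
          have k2 : (t : ℝ) ^ i ≤ (t : ℝ) ^ K := pow_le_pow_right₀ (by linarith) (by omega)
          calc (P.coeff i : ℝ) * (t : ℝ) ^ i ≤ (t : ℝ) * (t : ℝ) ^ i :=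
                mul_le_mul_of_nonneg_right k1 (by positivity)
            _ ≤ (t : ℝ) * (t : ℝ) ^ K := mul_le_mul_of_nonneg_left k2 (by positivity)
      _ = ((P.natDegree + 1 : ℕ) : ℝ) * ((t : ℝ) * (t : ℝ) ^ K) := by
          rw [Finset.sum_const, Finset.card_range, nsmul_eq_mul]
      _ ≤ (t : ℝ) * ((t : ℝ) * (t : ℝ) ^ K) := by
          apply mul_le_mul_of_nonneg_right _ (by positivity)
          have : ((P.natDegree + 1 : ℕ) : ℝ) ≤ (K : ℝ) + 1 := by exact_mod_cast (by omega)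
          linarith
      _ = (t : ℝ) ^ (K + 2) := by ring
  have h3 : (0 : ℝ) < ((P.eval (t : ℤ) : ℤ) : ℝ) := by
    have : (0 : ℤ) < P.eval (t : ℤ) := by omega
    exact_mod_cast this
  have h4 := Real.log_le_log h3 h1
  rw [Real.log_pow] at h4
  push_cast at h4
  exact h4

theorem geo {P : ℤ[X]} {K : ℕ} {H : ℝ} (hP : Small K H P) (hH : 1 ≤ H) (h0 : |P.coeff 0| ≤ 1) :
    Geo P H := by
  intro i
  rcases Nat.eq_zero_or_pos i with rfl | hi
  · rw [pow_zero]
    exact_mod_cast h0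
  · exact (hP.2 i).trans (le_self_pow₀ hH (by omega))

theorem pos_deg {P : ℤ[X]} {t : ℕ} (h0 : |P.coeff 0| ≤ 1) (h2 : 2 ≤ P.eval (t : ℤ)) :
    0 < P.natDegree := by
  by_contra hcon
  have h1 : P.natDegree = 0 := by omega
  rw [eq_C_of_natDegree_eq_zero h1, eval_C] at h2
  have := (abs_le.mp h0).2
  omega

theorem Wr_ne_zero {g h : ℤ[X]} {K y z t : ℕ} {H : ℝ} (hg : Small K H g) (hH : 0 ≤ H)
    (hHt : H + 3 ≤ t) (hg1 : 0 < g.natDegree) (hh1 : 0 < h.natDegree) (hy : y ≠ 0)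
    (hcop : IsCoprime (g.eval (t : ℤ)) (h.eval (t : ℤ))) : Wr g h y z ≠ 0 := by
  intro h0
  have hg0 : g ≠ 0 := by rintro rfl; simp at hg1
  have hh0 : h ≠ 0 := by rintro rfl; simp at hh1
  have h1 : g ^ y * derivative (h ^ z) - derivative (g ^ y) * h ^ z = 0 := by
    have h2 : g * h * (g ^ y * derivative (h ^ z) - derivative (g ^ y) * h ^ z) = 0 := by
      rw [Wr] at h0
      have k1 := mul_derivative_pow g y
      have k2 := mul_derivative_pow h z
      linear_combination (g * g ^ y) * k2 - (h * h ^ z) * k1 + (g ^ y * h ^ z) * h0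
    exact (mul_eq_zero.mp h2).resolve_left (mul_ne_zero hg0 hh0)
  have hc := coprime_of_eval hg0 hH hg.2 hHt hcop
  have hc' : IsCoprime ((g ^ y).map (Int.castRingHom ℚ)) ((h ^ z).map (Int.castRingHom ℚ)) := by
    rw [Polynomial.map_pow, Polynomial.map_pow]
    exact hc.pow
  have hw : wronskian ((g ^ y).map (Int.castRingHom ℚ)) ((h ^ z).map (Int.castRingHom ℚ)) = 0 := by
    rw [wronskian, derivative_map, derivative_map, ← Polynomial.map_mul, ← Polynomial.map_mul,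
      ← Polynomial.map_sub, h1, Polynomial.map_zero]
  have h3 := (hc'.wronskian_eq_zero_iff.mp hw).1
  have h4 := derivative_eq_zero.mp h3
  rw [natDegree_map_eq_of_injective Int.cast_injective, natDegree_pow] at h4
  rcases Nat.mul_eq_zero.mp h4 with h5 | h5 <;> omega

/-- The common part of both forms of the equation. -/
theorem core {K N x y z t : ℕ} {H : ℝ} {f g h : ℤ[X]} {σ τ : ℤ} (hσ : |σ| = 1) (hτ : |τ| = 1)
    (hN : N = 3 * K ^ 3 + 6 * K ^ 2 + 7 * K + 5) (ht : 2 ≤ t) (hH : 1 ≤ H) (hHt : H + 3 ≤ t)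
    (hbig : 3 * (H * H) ^ N < t)
    (hf : Small K H f) (hg : Small K H g) (hh : Small K H h)
    (f0 : f.coeff 0 = 0) (g0 : |g.coeff 0| = 1) (h0 : |h.coeff 0| = 1)
    (hf2 : 2 ≤ f.eval (t : ℤ)) (hg2 : 2 ≤ g.eval (t : ℤ)) (hh2 : 2 ≤ h.eval (t : ℤ))
    (cgh : IsCoprime (g.eval (t : ℤ)) (h.eval (t : ℤ)))
    (hy0 : y ≠ 0) (hx : (x : ℝ) ≤ H) (hy : (y : ℝ) ≤ H) (hz : (z : ℝ) ≤ H)
    (heq : σ * g.eval (t : ℤ) ^ y + τ * h.eval (t : ℤ) ^ z = f.eval (t : ℤ) ^ x) :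
    C σ * g ^ y + C τ * h ^ z = f ^ x := by
  have hfne : f ≠ 0 := by rintro rfl; simp at hf2
  have hg1 := pos_deg g0.le hg2
  have hh1 := pos_deg h0.le hh2
  have hW := Wr_ne_zero (z := z) hg (by linarith) hHt hg1 hh1 hy0 cgh
  have hne : ∀ a : ℤ, |a| = 1 → a ≠ 0 := by rintro a ha rfl; simp at ha
  apply full (I := N) (hne σ hσ) (hne τ hτ) hN.ge hf.1 hg.1 hh.1 f0 (hne _ g0) (hne _ h0) hfne hg1 hh1 hW
  apply X_pow_dvd_of_eval (by omega : 0 < t)
  · intro i hi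
    have kf := (geo hf hH (by rw [f0]; simp)).pow (by linarith) x i
    have kg := (geo hg hH g0.le).pow (by linarith) y i
    have kh := (geo hh hH h0.le).pow (by linarith) z i
    have hup : ∀ w : ℕ, (w : ℝ) ≤ H → ((w : ℝ) * H) ^ i ≤ (H * H) ^ N := by
      intro w hw
      have k1 : (w : ℝ) * H ≤ H * H := mul_le_mul_of_nonneg_right hw (by linarith)
      calc ((w : ℝ) * H) ^ i ≤ (H * H) ^ i := pow_le_pow_left₀ (by positivity) k1 i
        _ ≤ (H * H) ^ N := pow_le_pow_right₀ (by nlinarith) hi.le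
    rw [coeff_sub, coeff_add, coeff_C_mul, coeff_C_mul]
    push_cast
    have hσR : |(σ : ℝ)| = 1 := by exact_mod_cast hσ
    have hτR : |(τ : ℝ)| = 1 := by exact_mod_cast hτ
    have k1 : |(σ : ℝ) * ((g ^ y).coeff i : ℝ)| ≤ (H * H) ^ N := by
      rw [abs_mul, hσR, one_mul]; exact kg.trans (hup y hy)
    have k2 : |(τ : ℝ) * ((h ^ z).coeff i : ℝ)| ≤ (H * H) ^ N := by
      rw [abs_mul, hτR, one_mul]; exact kh.trans (hup z hz)
    have k3 : |((f ^ x).coeff i : ℝ)| ≤ (H * H) ^ N := kf.trans (hup x hx)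
    have k4 := abs_sub ((σ : ℝ) * ((g ^ y).coeff i : ℝ) + (τ : ℝ) * ((h ^ z).coeff i : ℝ))
      ((f ^ x).coeff i : ℝ)
    have k5 := abs_add_le ((σ : ℝ) * ((g ^ y).coeff i : ℝ)) ((τ : ℝ) * ((h ^ z).coeff i : ℝ))
    linarith
  · simp only [eval_sub, eval_add, eval_mul, eval_C, eval_pow]
    rw [heq, sub_self]

/-- **Polynomials with constant terms `0`, `± 1`, `± 1`.** -/
theorem result (K : ℕ) : ∃ δ : ℝ, 0 < δ ∧ ∃ t₀ : ℕ, ∀ t : ℕ, t₀ ≤ t → ∀ f g h : ℤ[X],
    Small K ((t : ℝ) ^ δ) f → Small K ((t : ℝ) ^ δ) g → Small K ((t : ℝ) ^ δ) h →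
    f.coeff 0 = 0 → |g.coeff 0| = 1 → |h.coeff 0| = 1 →
    2 ≤ f.eval (t : ℤ) → 2 ≤ g.eval (t : ℤ) → 2 ≤ h.eval (t : ℤ) →
    IsCoprime (f.eval (t : ℤ)) (g.eval (t : ℤ)) → IsCoprime (f.eval (t : ℤ)) (h.eval (t : ℤ)) →
    IsCoprime (g.eval (t : ℤ)) (h.eval (t : ℤ)) →
    ∀ x y z : ℕ, 2 ≤ x → 2 ≤ y → 2 ≤ z →
      (f.eval (t : ℤ) ^ x + g.eval (t : ℤ) ^ y = h.eval (t : ℤ) ^ z →
        f ^ x + g ^ y = h ^ z ∧ x * y * z < y * z + z * x + x * y) ∧
      (g.eval (t : ℤ) ^ y + h.eval (t : ℤ) ^ z = f.eval (t : ℤ) ^ x →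
        g ^ y + h ^ z = f ^ x ∧ x * y * z < y * z + z * x + x * y) := by
  obtain ⟨C₀, κ, hC, hexp⟩ := exp_bound_real
  obtain ⟨N, hN⟩ : ∃ N : ℕ, N = 3 * K ^ 3 + 6 * K ^ 2 + 7 * K + 5 := ⟨_, rfl⟩
  have hN0 : 0 < N := by omega
  obtain ⟨t₀, ht₀⟩ := eventually_atTop.mp (large K N κ hN0 C₀)
  have hNR : (0 : ℝ) < N := by exact_mod_cast hN0
  refine ⟨1 / (8 * N : ℝ), by positivity, t₀, ?_⟩
  intro t ht f g h hf hg hh f0 g0 h0 hf2 hg2 hh2 cfg cfh cgh x y z hx hy hz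
  obtain ⟨e1, e2, e3, e4, e5, e6⟩ := ht₀ t ht
  obtain ⟨H, hH⟩ : ∃ H : ℝ, H = (t : ℝ) ^ (1 / (8 * N : ℝ)) := ⟨_, rfl⟩
  rw [← hH] at hf hg hh e3 e4 e5 e6
  have vf := value hf e1 e2 (by linarith) hf2
  have vg := value hg e1 e2 (by linarith) hg2
  have vh := value hh e1 e2 (by linarith) hh2
  obtain ⟨a, ha⟩ := Int.eq_ofNat_of_zero_le (show 0 ≤ f.eval (t : ℤ) by omega)
  obtain ⟨b, hb⟩ := Int.eq_ofNat_of_zero_le (show 0 ≤ g.eval (t : ℤ) by omega)
  obtain ⟨c, hc⟩ := Int.eq_ofNat_of_zero_le (show 0 ≤ h.eval (t : ℤ) by omega)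
  have bound : ∀ {u v w : ℕ} {k l m : ℕ}, 2 ≤ u → 2 ≤ v → 2 ≤ w → 2 ≤ k → 2 ≤ l → 2 ≤ m →
      Real.log ((u : ℤ) : ℝ) ≤ (K + 2) * Real.log t → Real.log ((v : ℤ) : ℝ) ≤ (K + 2) * Real.log t →
      Real.log ((w : ℤ) : ℝ) ≤ (K + 2) * Real.log t →
      IsCoprime (u : ℤ) (v : ℤ) → IsCoprime (u : ℤ) (w : ℤ) → IsCoprime (v : ℤ) (w : ℤ) →
      ((u : ℤ) ^ k + (v : ℤ) ^ l = (w : ℤ) ^ m) →
      (k : ℝ) ≤ H ∧ (l : ℝ) ≤ H ∧ (m : ℝ) ≤ H := by
    intro u v w k l m hu hv hw hk hl hm lu lv lw cuv cuw cvw heq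
    obtain ⟨k1, k2, k3⟩ := hexp u v w k l m (by omega) (by omega) (by omega)
      (Nat.isCoprime_iff_coprime.mp cuv) (Nat.isCoprime_iff_coprime.mp cuw)
      (Nat.isCoprime_iff_coprime.mp cvw) hk hl hm (by exact_mod_cast heq)
    have hmax : Real.log ((max u (max v w) : ℕ) : ℝ) ≤ (K + 2) * Real.log t := by
      have k4 : max u (max v w) = u ∨ max u (max v w) = v ∨ max u (max v w) = w := by
        rcases max_choice u (max v w) with h | h
        · exact Or.inl h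
        · rcases max_choice v w with h' | h'
          · exact Or.inr (Or.inl (h.trans h'))
          · exact Or.inr (Or.inr (h.trans h'))
      rcases k4 with k4 | k4 | k4
      · rw [k4]; exact_mod_cast lu
      · rw [k4]; exact_mod_cast lv
      · rw [k4]; exact_mod_cast lw
    have hmax0 : 0 ≤ Real.log ((max u (max v w) : ℕ) : ℝ) := Real.log_natCast_nonneg _
    have hfin : C₀ * Real.log ((max u (max v w) : ℕ) : ℝ) ^ κ ≤ H :=
      (mul_le_mul_of_nonneg_left (pow_le_pow_left₀ hmax0 hmax κ) hC.le).trans e6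
    exact ⟨(k1 hu).trans hfin, (k2 hv).trans hfin, k3.trans hfin⟩
  have hfd : 0 < f.natDegree := pos_deg (by rw [f0]; simp) hf2
  have hg0 : g ≠ 0 := by rintro rfl; simp at hg2
  have hh0 : h ≠ 0 := by rintro rfl; simp at hh2
  have hf0 : f ≠ 0 := by rintro rfl; simp at hf2
  constructor
  · intro heq
    obtain ⟨b1, b2, b3⟩ := bound (u := a) (v := b) (w := c) (by omega) (by omega) (by omega) hx hy hz
      (by rw [← ha]; exact vf) (by rw [← hb]; exact vg)
      (by rw [← hc]; exact vh)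
      (by rw [← ha, ← hb]; exact cfg)
      (by rw [← ha, ← hc]; exact cfh)
      (by rw [← hb, ← hc]; exact cgh)
      (by rw [← ha, ← hb,
        ← hc]; exact heq)
    have hid := core (σ := -1) (τ := 1) (by simp) (by simp) hN e1 e3 e4 e5 hf hg hh f0 g0 h0 hf2 hg2 hh2
      cgh (by omega) b1 b2 b3 (by rw [← heq]; ring)
    have hid' : f ^ x + g ^ y = h ^ z := by
      simp only [map_neg, map_one] at hid
      linear_combination -hid
    exact ⟨hid', mason (by omega) (by omega) (by omega) hfd hg0 hh0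
      (coprime_of_eval hf0 (by linarith) hf.2 e4 cfg) hid'⟩
  · intro heq
    obtain ⟨b1, b2, b3⟩ := bound (u := b) (v := c) (w := a) (by omega) (by omega) (by omega) hy hz hx
      (by rw [← hb]; exact vg) (by rw [← hc]; exact vh)
      (by rw [← ha]; exact vf)
      (by rw [← hb, ← hc]; exact cgh)
      (by rw [← ha, ← hb]; exact cfg.symm)
      (by rw [← ha, ← hc]; exact cfh.symm)
      (by rw [← ha, ← hb,
        ← hc]; exact heq)
    have hid := core (σ := 1) (τ := 1) (by simp) (by simp) hN e1 e3 e4 e5 hf hg hh f0 g0 h0 hf2 hg2 hh2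
      cgh (by omega) b3 b1 b2 (by rw [← heq]; ring)
    have hid' : g ^ y + h ^ z = f ^ x := by
      simp only [map_one] at hid
      linear_combination hid
    have hm := mason (by omega) (by omega) (by omega) (pos_deg g0.le hg2) hh0 hf0
      (coprime_of_eval hg0 (by linarith) hg.2 e4 cgh) hid'
    refine ⟨hid', ?_⟩
    calc x * y * z = y * z * x := by ring
      _ < z * x + x * y + y * z := hm
      _ = y * z + z * x + x * y := by ring

end Pool.Agent.Results.MP_509488_nt.UnitConstantTerms
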